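import Pool.Agent.LibMdim86.Main

/-!
# Multiset dimension of the strong product of two paths

The definitions `strongProd`, `mrep`, `IsMultisetResolving`, `mdim` and `value` are in
`Pool.Agent.LibMdim86.Defs`.
-/

namespace Pool.Agent.Results.MP_732f2a_co.StrongPaths

open Mdim86

/-- For `3 ≤ n ≤ m` the multiset dimension of the strong product of the paths on `n` and `m`
vertices (in either order) is `value n m`. -/
theorem result (n m : ℕ) (hn : 3 ≤ n) (hnm : n ≤ m) :
    mdim (strongProd (SimpleGraph.pathGraph n) (SimpleGraph.pathGraph m)) = value n m ∧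
    mdim (strongProd (SimpleGraph.pathGraph m) (SimpleGraph.pathGraph n)) = value n m :=
  ⟨main hn hnm, (mdim_comm m n).trans (main hn hnm)⟩

end Pool.Agent.Results.MP_732f2a_co.StrongPaths
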